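import Pool.Agent.Lib.MP_76c039_coAM.Final

set_option autoImplicit false

/-!
# Groups with an infinite amenable subgroup

Every finite colouring of a group with an infinite amenable subgroup has arbitrarily large finite
monochromatic symmetric subsets.

Proof. If not, the structure theorem for the groups for which Q1 fails gives an infinite amenable
group `P` with a finite central subgroup `Z` of exponent two, `x ^ N ∈ Z` for all `x` (`N` odd),
such that `Z` lies in all subgroups of finite index, and a finite colouring of `P` without
monochromatic pairs `x`, `s * x`, `s ≠ 1` of odd order. Let `M` be an invariant mean of `P`, `A` a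
colour class of positive mean, `f` its indicator function in the Hilbert space of `M` and
`φ g = ⟪f, g f⟫`. Then `φ s = 0` for `s ≠ 1` of odd order, but the mean of `φ` is at least the square
of the mean of `A`. The mean `T` of the projections to the translates of `f` is a positive trace
class operator which commutes with `P`; its eigenspaces are finite-dimensional, so the image of `P`
there is finite, as the exponent of `P` is finite, and `Z` acts trivially. So `φ` is
`Z`-invariant up to a function which is zero in mean square, and `φ = 0` in mean square because
every element of `P` is a product of an element of `Z` and an element of odd order: contradiction.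
-/

namespace Pool.Agent.Results.MP_76c039_co.AmenableSubgroup

open Pool.Agent.Lib.MP_76c039_coAM

/-- `M` is a left-invariant mean on the bounded real functions on the group `K`. -/
structure InvariantMean (K : Type*) [Group K] (M : (K → ℝ) → ℝ) : Prop where
  add : ∀ f g : K → ℝ, (∃ C, ∀ x, |f x| ≤ C) → (∃ C, ∀ x, |g x| ≤ C) →
    M (fun x => f x + g x) = M f + M g
  smul : ∀ (r : ℝ) (f : K → ℝ), (∃ C, ∀ x, |f x| ≤ C) → M (fun x => r * f x) = r * M f
  nonneg : ∀ f : K → ℝ, (∃ C, ∀ x, |f x| ≤ C) → (∀ x, 0 ≤ f x) → 0 ≤ M f
  one : M (fun _ => 1) = 1
  inv : ∀ (a : K) (f : K → ℝ), (∃ C, ∀ x, |f x| ≤ C) → M (fun x => f (a * x)) = M f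

theorem result {G : Type*} [Group G] (K : Subgroup G) (hK : Infinite K) (M : (K → ℝ) → ℝ)
    (hM : InvariantMean K M) (k : ℕ) (c : G → Fin k) (n : ℕ) :
    ∃ (A : Finset G) (g : G), n ≤ A.card ∧ (∀ a ∈ A, ∀ b ∈ A, c a = c b) ∧
      (A : Set G) = (fun x => g * x⁻¹ * g) '' (A : Set G) := by
  have hA : Amenable K := ⟨M, hM.add, hM.smul, hM.nonneg, hM.one, hM.inv⟩
  exact (pairOut_of_amenable K hK hA).large k c n

end Pool.Agent.Results.MP_76c039_co.AmenableSubgroup
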