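import Pool.Agent.Lib.MP_76c039_co.Four

set_option autoImplicit false

/-!
Q1 for all colourings with at most four colours, for all infinite groups.
-/

namespace Pool.Agent.Results.MP_76c039_co.FourColors

open Pool.Agent.Lib.MP_76c039_co

/-- Every colouring of an infinite group with at most four colours has arbitrarily large finite
monochromatic symmetric subsets. -/
theorem result {G : Type*} [Group G] [Infinite G] (k : ℕ) (hk : k ≤ 4) (c : G → Fin k) (n : ℕ) :
    ∃ (A : Finset G) (g : G), n ≤ A.card ∧ (∀ a ∈ A, ∀ b ∈ A, c a = c b) ∧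
      (A : Set G) = (fun x => g * x⁻¹ * g) '' (A : Set G) := by
  obtain ⟨A, g, h1, h2, h3⟩ := four_colours G (fun x => Fin.castLE hk (c x)) n
  exact ⟨A, g, h1, fun a ha b hb => Fin.castLE_injective hk (h2 a ha b hb), h3⟩

end Pool.Agent.Results.MP_76c039_co.FourColors
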