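import Pool.Agent.Lib.MP_76c039_co.Core

set_option autoImplicit false

/-!
Reduction of Q1 to monochromatic pairs: for a group with only finitely many involutions, large
monochromatic symmetric sets exist in all finite colourings iff the Cayley graph with respect to
the nontrivial squares has infinite chromatic number.
-/

namespace Pool.Agent.Results.MP_76c039_co.PairCriterion

open Pool.Agent.Lib.MP_76c039_co

/-- For a group with finitely many solutions of `x * x = 1`, every finite colouring has arbitrarily
large finite monochromatic symmetric subsets if and only if every finite colouring gives the same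
colour to some `x` and `z * z * x` with `z * z ≠ 1`. -/
theorem result {G : Type*} [Group G] (hfin : {x : G | x * x = 1}.Finite) :
    (∀ (k : ℕ) (c : G → Fin k) (n : ℕ), ∃ (A : Finset G) (g : G), n ≤ A.card ∧
      (∀ a ∈ A, ∀ b ∈ A, c a = c b) ∧ (A : Set G) = (fun x => g * x⁻¹ * g) '' (A : Set G)) ↔
    (∀ (k : ℕ) (c : G → Fin k), ∃ x z : G, z * z ≠ 1 ∧ c (z * z * x) = c x) := by
  constructor
  · intro h k c
    obtain ⟨x, z, hz, hc⟩ := pairOut_of_large h k c hfin.toFinset
    refine ⟨x, z, ?_, hc⟩
    intro h1
    apply hz
    rw [Set.Finite.mem_toFinset]
    exact h1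
  · intro h k c n
    exact (pairOut_of_pairs h).large k c n

end Pool.Agent.Results.MP_76c039_co.PairCriterion
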