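import Pool.Agent.Lib.MP_76c039_co.Struct2

set_option autoImplicit false

/-!
# The structure of the groups for which Q1 fails

If Q1 fails for a group `G`, then every infinite subgroup of `G` contains a finitely generated
infinite group `H`, generated by its elements of odd order, with finite centre of even order, such
that all other elements have finite centralizers and `H` modulo the centre has odd exponent; and Q1
fails for the quotient `Q` of `H` by the squares of the central elements, whose centre is an
elementary abelian 2-group. So Q1 holds for all infinite groups if it holds for the groups `Q` of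
this kind, where it says that in every finite colouring there are `x` and `s ≠ 1` of odd order such
that `x` and `s * x` have the same colour. In particular Q1 holds for all groups with an infinite
2-subgroup.

Proof. If Q1 fails, then there is a finite colouring `c` without pairs `x`, `z * z * x` of the same
colour, `z * z ≠ 1`; so commuting sets are bounded, and there are infinite subgroups with maximal
centre. In such a subgroup `H` all elements outside the centre have finite centralizers. The main
point: an infinite periodic group `Q` in which all elements `≠ 1` have finite centralizers has no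
involution `i`: for all but finitely many `g` the product of `i` and its conjugate by `g` has odd
order, and then `g = c * h` where `c` commutes with `i` and `i` inverts `h`; apply this to `a * b`
for elements `a`, `b` inverted by `i`, `a` fixed: `c⁻¹ * a * b = b * a * c`, where `c` is the same
for infinitely many `b`, so `c⁻¹ * a` has an infinite centralizer. The theorem of Schur and
Zassenhaus shows that finite subgroups are bounded, which gives finitely generated subgroups.
-/

namespace Pool.Agent.Results.MP_76c039_co.Structure

open Pool.Agent.Lib.MP_76c039_co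

/-- Every finite colouring of `G` has arbitrarily large finite monochromatic symmetric subsets. -/
def LargeSymmetric (G : Type*) [Group G] : Prop :=
  ∀ (k : ℕ) (c : G → Fin k) (n : ℕ), ∃ (A : Finset G) (g : G),
    n ≤ A.card ∧ (∀ a ∈ A, ∀ b ∈ A, c a = c b) ∧
      (A : Set G) = (fun x => g * x⁻¹ * g) '' (A : Set G)

/-- `H` is infinite, finitely generated and generated by its elements of odd order; the centre is
finite and contains an element of order two; the elements outside the centre have finite
centralizers; for some odd `N` all `N`-th powers are central; the orders of the finite subgroups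
are bounded. -/
structure Tight (H : Type*) [Group H] : Prop where
  infinite : Infinite H
  fg : Group.FG H
  odd_gen : Subgroup.closure {x : H | Odd (orderOf x)} = ⊤
  finite_center : (Subgroup.center H : Set H).Finite
  involution : ∃ z ∈ Subgroup.center H, z ≠ 1 ∧ z * z = 1
  centralizer : ∀ h : H, h ∉ Subgroup.center H → {x : H | x * h = h * x}.Finite
  odd_exponent : ∃ N : ℕ, Odd N ∧ ∀ x : H, x ^ N ∈ Subgroup.center H
  bounded : ∃ B : ℕ, ∀ F : Subgroup H, Finite F → Nat.card F ≤ B

theorem Tight.of_lib {H : Type*} [Group H] (h : Pool.Agent.Lib.MP_76c039_co.Tight H) : Tight H :=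
  ⟨h.infinite, h.fg, h.odd_gen, h.finite_center, h.involution, h.centralizer, h.odd_exponent,
    h.bounded⟩

theorem result {G : Type*} [Group G] (hG : ¬ LargeSymmetric G) :
    {x : G | x * x = 1}.Finite ∧ (∃ M : ℕ, 0 < M ∧ ∀ x : G, x ^ M = 1) ∧
    (∀ K : Subgroup G, (∀ x ∈ K, ∃ a : ℕ, x ^ (2 ^ a) = 1) → Finite K) ∧
    ∀ K : Subgroup G, Infinite K → ∃ H : Subgroup G, H ≤ K ∧ Tight H ∧
      ∃ (N : Subgroup H) (_ : N.Normal), (∀ x, x ∈ N ↔ ∃ z ∈ Subgroup.center H, z * z = x) ∧
        Tight (H ⧸ N) ∧ (∀ z ∈ Subgroup.center (H ⧸ N), z * z = 1) ∧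
        ¬ LargeSymmetric (H ⧸ N) ∧
        ∃ (k : ℕ) (d : H ⧸ N → Fin k), ∀ x s : H ⧸ N, Odd (orderOf s) → s ≠ 1 →
          d (s * x) ≠ d x := by
  have hnp : ¬ PairOut G := fun h => hG (fun k c n => h.large k c n)
  have hJ : {x : G | x * x = 1}.Finite := by
    by_contra h
    exact hnp (pairOut_of_infinite h)
  obtain ⟨M, hM, hexp⟩ : ∃ M : ℕ, 0 < M ∧ ∀ x : G, x ^ M = 1 := by
    by_contra hcon
    push Not at hcon
    apply hnp
    apply pairOut_of_unbounded
    intro N
    obtain ⟨x, hx⟩ := hcon (Nat.factorial N) (Nat.factorial_pos N)
    refine ⟨x, fun i hi hiN h1 => hx ?_⟩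
    obtain ⟨m, hm⟩ := Nat.dvd_factorial hi hiN
    rw [hm, pow_mul, h1, one_pow]
  obtain ⟨k, c, hc⟩ := exists_good hnp
  have hmain : ∀ K : Subgroup G, Infinite K → ∃ H : Subgroup G, H ≤ K ∧
      Pool.Agent.Lib.MP_76c039_co.Tight H :=
    fun K hK => exists_tight hc hJ M hM hexp K hK
  refine ⟨hJ, ⟨M, hM, hexp⟩, ?_, ?_⟩
  · intro K hK
    by_contra hinf
    rw [not_finite_iff_infinite] at hinf
    obtain ⟨H, hHK, hT⟩ := hmain K hinf
    have h1 : ∀ x : H, Odd (orderOf x) → x = 1 := by
      intro x hx
      obtain ⟨a, ha⟩ := hK x (hHK x.2)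
      have h2 : orderOf x ∣ 2 ^ a := orderOf_dvd_of_pow_eq_one (Subtype.ext (by simpa using ha))
      rw [← orderOf_eq_one_iff]
      exact Nat.Coprime.eq_one_of_dvd ((Nat.coprime_two_right.2 hx).pow_right a) h2
    have h3 : (⊤ : Subgroup H) ≤ ⊥ := by
      rw [← hT.odd_gen, Subgroup.closure_le]
      intro x hx
      exact Subgroup.mem_bot.2 (h1 x hx)
    have hHi := hT.infinite
    obtain ⟨x, y, hxy⟩ := exists_pair_ne H
    have h4 : ∀ x : H, x = 1 := fun x => Subgroup.mem_bot.1 (h3 (Subgroup.mem_top x))
    exact hxy ((h4 x).trans (h4 y).symm)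
  · intro K hK
    obtain ⟨H, hHK, hT⟩ := hmain K hK
    have hnpH : ¬ PairOut H := fun h => hnp (PairOut.of_subgroup H h)
    obtain ⟨h1, h2, h3, h4⟩ := tight_quotient hT hnpH
    exact ⟨H, hHK, Tight.of_lib hT, sqc H, inferInstance, fun x => Iff.rfl, Tight.of_lib h1, h2,
      fun h => h3 (pairOut_of_large h), h4⟩

end Pool.Agent.Results.MP_76c039_co.Structure
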